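import Pool.Agent.Helper55.RT.Spec

/-!
# WRT: outside of a thin set the Galois group is the full wreath product
-/

set_option autoImplicit false
set_option linter.all false

open Polynomial
open scoped Classical

namespace Pool.Agent.Helper61.Thin.WRT

open Pool.Agent.TH115.GD Pool.Agent.Helper55.TT
open Pool.Agent.Helper55.RG hiding em_inj VanishL VanishExt
open Pool.Agent.Helper55.RL Pool.Agent.Helper55.RT

theorem mono {k : Type} [Field k] {n : ℕ} {P Q : (Fin n → k) → Prop} (h : OffThin P)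
    (hPQ : ∀ a, P a → Q a) : OffThin Q := by
  obtain ⟨H, S, h0, h1, h2⟩ := h
  exact ⟨H, S, h0, h1, fun a ha hf => hPQ a (h2 a ha hf)⟩

theorem all {k : Type} [Field k] {n : ℕ} {ι : Type} [Fintype ι] {P : ι → (Fin n → k) → Prop}
    (h : ∀ i, OffThin (P i)) : OffThin (fun a => ∀ i, P i a) := by
  choose H S h0 h1 h2 using h
  refine ⟨∏ i, H i, Finset.univ.biUnion S, Finset.prod_ne_zero_iff.2 (fun i _ => h0 i), ?_, ?_⟩
  · intro f hf
    obtain ⟨i, -, hi⟩ := Finset.mem_biUnion.1 hf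
    exact h1 i f hi
  · intro a ha hf i
    rw [map_prod] at ha
    exact h2 i a (Finset.prod_ne_zero_iff.1 ha i (Finset.mem_univ i))
      (fun f hfi => hf f (Finset.mem_biUnion.2 ⟨i, Finset.mem_univ i, hfi⟩))

/-- extension of homomorphisms to algebraic extensions -/
theorem ext_hom {Q L M : Type} [Field Q] [Field L] [Field M] [IsAlgClosed M] (f : Q →+* L)
    (f' : Q →+* M) (halg : ∀ x : L, f.IsIntegralElem x) : ∃ s : L →+* M, ∀ q, s (f q) = f' q := by
  letI := f.toAlgebra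
  letI := f'.toAlgebra
  haveI : Algebra.IsIntegral Q L := ⟨halg⟩
  haveI : Algebra.IsAlgebraic Q L := Algebra.IsIntegral.isAlgebraic
  let s : L →ₐ[Q] M := IsAlgClosed.lift
  exact ⟨s, fun q => s.commutes q⟩

theorem key {k k' : Type} [Field k] [CharZero k] [Field k'] [Algebra k k'] [IsSepClosure k k']
    (κ₀ : IntermediateField k k') {A : Type} [CommRing A] (I : Ideal A) (hI : I.IsMaximal)
    (e : κ₀ →+* A) (φ φ' : A →+* k') (hφ : I ≤ RingHom.ker φ) (hφ' : I ≤ RingHom.ker φ')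
    (he : ∀ u, φ (e u) = (u : k')) (he' : ∀ u, φ' (e u) = (u : k')) :
    ∃ s : k' ≃ₐ[κ₀] k', ∀ x, s (φ x) = φ' x := by
  haveI : IsAlgClosed k' := isAC (k := k)
  haveI := hI
  letI : Field (A ⧸ I) := Ideal.Quotient.field I
  let f : A ⧸ I →+* k' := Ideal.Quotient.lift I φ (fun a ha => hφ ha)
  let f' : A ⧸ I →+* k' := Ideal.Quotient.lift I φ' (fun a ha => hφ' ha)
  have hf : ∀ a, f (Ideal.Quotient.mk I a) = φ a := fun a => Ideal.Quotient.lift_mk _ _ _
  have hf' : ∀ a, f' (Ideal.Quotient.mk I a) = φ' a := fun a => Ideal.Quotient.lift_mk _ _ _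
  haveI : Algebra.IsAlgebraic k k' := (inferInstance : Algebra.IsSeparable k k').isAlgebraic
  haveI : Algebra.IsAlgebraic κ₀ k' := Algebra.IsAlgebraic.tower_top (K := k) κ₀
  have halg : ∀ x : k', f.IsIntegralElem x := by
    intro x
    obtain ⟨p, hp, hx⟩ := (Algebra.IsIntegral.isIntegral (R := κ₀) x : IsIntegral κ₀ x)
    refine ⟨p.map ((Ideal.Quotient.mk I).comp e), hp.map _, ?_⟩
    rw [eval₂_map]
    have : f.comp ((Ideal.Quotient.mk I).comp e) = algebraMap κ₀ k' := by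
      ext u
      show f (Ideal.Quotient.mk I (e u)) = (u : k')
      rw [hf, he]
    rw [this]
    exact hx
  obtain ⟨s, hs⟩ := ext_hom f f' halg
  let s' : k' →ₐ[κ₀] k' :=
    { s with
      commutes' := fun u => by
        show s (u : k') = (u : k')
        have h1 : s (φ (e u)) = φ' (e u) := by rw [← hf, hs, hf']
        rwa [he, he'] at h1 }
  have hbij : Function.Bijective s' := Algebra.IsAlgebraic.algHom_bijective s'
  refine ⟨AlgEquiv.ofBijective s' hbij, fun x => ?_⟩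
  show s (φ x) = φ' x
  rw [← hf, hs, hf']

theorem main (hSL : Q_SL) (hDOM : Q_DOM) : Q_WRT := by
  intro k k' _ _ _ _ _ κ₀ _ g hg hirr n
  have hpair : ∀ p : {p : Fin n × Fin n // p.1 ≠ p.2}, OffThin (fun a : Fin n → k =>
      ∀ θ θ' : Fin n → k', (mpol a).map (algebraMap k k') = ∏ i, (X - C (θ i)) →
      (mpol a).map (algebraMap k k') = ∏ i, (X - C (θ' i)) → ∀ b c b' c' : k',
      ev2 (algebraMap κ₀ k') (θ p.1.1) b g = 0 → ev2 (algebraMap κ₀ k') (θ p.1.2) c g = 0 →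
      ev2 (algebraMap κ₀ k') (θ' p.1.1) b' g = 0 → ev2 (algebraMap κ₀ k') (θ' p.1.2) c' g = 0 →
      ∃ s : k' ≃ₐ[κ₀] k', (∀ l, s (θ l) = θ' l) ∧ s b = b' ∧ s c = c') := by
    rintro ⟨⟨i, j⟩, hij⟩
    obtain ⟨A, _, _, _, e, x, y, z, hfin, hinj, hev⟩ := hDOM k k' κ₀ g hg hirr n i j hij
    haveI := hfin
    refine mono (hSL k n A hinj) ?_
    intro a ha θ θ' h1 h2 b c b' c' h3 h4 h5 h6
    obtain ⟨φ, q1, q2, q3, q4, q5⟩ := hev a θ b c h1 h3 h4
    obtain ⟨φ', q1', q2', q3', q4', q5'⟩ := hev a θ' b' c' h2 h5 h6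
    have hle : ∀ ψ : A →+* k', (∀ r, ψ (algebraMap (MvPolynomial (Fin n) k) A r) =
        algebraMap k k' (MvPolynomial.eval a r)) →
        Ideal.map (algebraMap (MvPolynomial (Fin n) k) A)
          (RingHom.ker (MvPolynomial.eval a : MvPolynomial (Fin n) k →+* k)) ≤ RingHom.ker ψ := by
      intro ψ hψ
      rw [Ideal.map_le_iff_le_comap]
      intro r hr
      rw [RingHom.mem_ker] at hr
      rw [Ideal.mem_comap, RingHom.mem_ker, hψ, hr, map_zero]
    obtain ⟨s, hs⟩ := key κ₀ _ ha e φ φ' (hle φ q1) (hle φ' q1') q2 q2'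
    refine ⟨s, fun l => ?_, ?_, ?_⟩
    · rw [← q3, hs, q3']
    · rw [← q4, hs, q4']
    · rw [← q5, hs, q5']
  refine mono (all hpair) ?_
  intro a ha θ θ' h1 h2 i j hij b c b' c' h3 h4 h5 h6
  exact ha ⟨(i, j), hij⟩ θ θ' h1 h2 b c b' c' h3 h4 h5 h6

end Pool.Agent.Helper61.Thin.WRT
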