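import Pool.Agent.Helper55.RT.Spec

/-!
# SL: outside of a thin set the fibres of a finite domain over `k[a₁, …, aₙ]` are fields
-/

set_option autoImplicit false
set_option linter.all false

open Polynomial
open scoped Classical nonZeroDivisors

namespace Pool.Agent.Helper61.Thin.SL

open Pool.Agent.Helper55.RT

section prim

variable (R A : Type) [CommRing R] [IsDomain R] [CharZero R] [CommRing A] [IsDomain A]
  [Algebra R A] [Module.Finite R A]

/-- a primitive element in `A`, up to a denominator -/
theorem prim1 (hinj : Function.Injective (algebraMap R A)) :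
    ∃ γ : A, ∀ x : A, ∃ h : R, h ≠ 0 ∧ ∃ q : R[X], algebraMap R A h * x = aeval γ q := by
  let E := FractionRing A
  let M := FractionRing R
  haveI hF : FaithfulSMul R A := (faithfulSMul_iff_algebraMap_injective R A).2 hinj
  haveI : Algebra.IsIntegral R A := Algebra.IsIntegral.of_finite R A
  haveI : Algebra.IsAlgebraic R A := Algebra.IsIntegral.isAlgebraic
  have hinjE : Function.Injective (algebraMap R E) := by
    rw [IsScalarTower.algebraMap_eq R A E]
    exact (IsFractionRing.injective A E).comp hinj
  haveI hFE : FaithfulSMul R E := (faithfulSMul_iff_algebraMap_injective R E).2 hinjE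
  letI : Algebra M E := FractionRing.liftAlgebra R E
  haveI : IsScalarTower R M E := FractionRing.isScalarTower_liftAlgebra R E
  haveI : IsLocalization (Algebra.algebraMapSubmonoid A R⁰) E := inferInstance
  haveI : FiniteDimensional M E := Module.Finite.of_isLocalization R A R⁰
  haveI : CharZero M := charZero_of_injective_algebraMap (IsFractionRing.injective R M)
  obtain ⟨α, hα⟩ := Field.exists_primitive_element M E
  obtain ⟨⟨γ, ⟨_, r, hr, rfl⟩⟩, hx⟩ := IsLocalization.surj (Algebra.algebraMapSubmonoid A R⁰) α
  simp only at hx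
  have hr0 : r ≠ 0 := nonZeroDivisors.ne_zero hr
  set γ' : E := algebraMap A E γ with hγ'
  have hrE : algebraMap A E (algebraMap R A r) = algebraMap M E (algebraMap R M r) := by
    rw [← IsScalarTower.algebraMap_apply R A E, ← IsScalarTower.algebraMap_apply R M E]
  have htop : IntermediateField.adjoin M {γ'} = ⊤ := by
    rw [eq_top_iff, ← hα, IntermediateField.adjoin_simple_le_iff]
    have h1 : γ' ∈ IntermediateField.adjoin M {γ'} := IntermediateField.mem_adjoin_simple_self M γ'
    have h2 : algebraMap M E (algebraMap R M r) ∈ IntermediateField.adjoin M {γ'} :=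
      IntermediateField.algebraMap_mem _ _
    have h3 : algebraMap M E (algebraMap R M r) ≠ 0 := by
      rw [← IsScalarTower.algebraMap_apply R M E]
      intro h
      exact hr0 (hinjE (by rw [h, map_zero]))
    have h4 : α = γ' / algebraMap M E (algebraMap R M r) := by
      rw [eq_div_iff h3, ← hrE, hx]
    rw [h4]
    exact div_mem h1 h2
  refine ⟨γ, fun x => ?_⟩
  have hmem : algebraMap A E x ∈ (IntermediateField.adjoin M {γ'}).toSubalgebra := by
    rw [htop]
    exact IntermediateField.mem_top
  rw [IntermediateField.adjoin_simple_toSubalgebra_of_isAlgebraic (Algebra.IsAlgebraic.isAlgebraic γ'),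
    Algebra.adjoin_singleton_eq_range_aeval] at hmem
  obtain ⟨p, hp⟩ := hmem
  obtain ⟨b, hb, hbp⟩ := IsLocalization.integerNormalization_spec R⁰ p
  refine ⟨b, nonZeroDivisors.ne_zero hb, IsLocalization.integerNormalization R⁰ p, ?_⟩
  apply IsFractionRing.injective A E
  have h1 : aeval γ' ((IsLocalization.integerNormalization R⁰ p).map (algebraMap R M)) =
      algebraMap A E (aeval γ (IsLocalization.integerNormalization R⁰ p)) := by
    rw [aeval_map_algebraMap, hγ', aeval_algebraMap_apply]
  rw [← h1, hbp, map_mul, ← hp]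
  have h2 : (b • p : M[X]) = C (algebraMap R M b) * p := by
    rw [← smul_eq_C_mul, algebraMap_smul]
  rw [h2]
  show _ = aeval γ' (C (algebraMap R M b) * p)
  rw [map_mul, aeval_C]
  congr 1
  rw [← IsScalarTower.algebraMap_apply R A E, ← IsScalarTower.algebraMap_apply R M E]

theorem prim2 (hinj : Function.Injective (algebraMap R A)) :
    ∃ (γ : A) (h : R), h ≠ 0 ∧ ∀ x : A, ∃ q : R[X], algebraMap R A h * x = aeval γ q := by
  obtain ⟨γ, hγ⟩ := prim1 R A hinj
  obtain ⟨S, hS⟩ := (Module.Finite.fg_top : (⊤ : Submodule R A).FG)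
  choose H hH q hq using hγ
  refine ⟨γ, ∏ s ∈ S, H s, Finset.prod_ne_zero_iff.2 (fun s _ => hH s), fun x => ?_⟩
  have hx : x ∈ Submodule.span R (S : Set A) := by rw [hS]; exact Submodule.mem_top
  induction hx using Submodule.span_induction with
  | mem x hx =>
    have h1 : ∏ s ∈ S, H s = (∏ s ∈ S.erase x, H s) * H x :=
      (Finset.prod_erase_mul _ _ hx).symm
    refine ⟨C (∏ s ∈ S.erase x, H s) * q x, ?_⟩
    rw [h1, map_mul, mul_assoc, hq, map_mul, aeval_C]
  | zero => exact ⟨0, by simp⟩
  | add x y _ _ hx hy =>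
    obtain ⟨a, ha⟩ := hx
    obtain ⟨b, hb⟩ := hy
    exact ⟨a + b, by rw [mul_add, ha, hb, map_add]⟩
  | smul r x _ hx =>
    obtain ⟨a, ha⟩ := hx
    refine ⟨C r * a, ?_⟩
    rw [Algebra.smul_def, map_mul, aeval_C, ← ha]
    ring

end prim

section fibre

variable {k R A : Type} [Field k] [CommRing R] [CommRing A] [Algebra R A] (ev : R →+* k)

/-- a polynomial with coefficients in the kernel -/
theorem aeval_mem (γ : A) (p : R[X]) (hp : p.map ev = 0) :
    aeval γ p ∈ Ideal.map (algebraMap R A) (RingHom.ker ev) := by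
  rw [aeval_eq_sum_range]
  apply Ideal.sum_mem
  intro i _
  rw [Algebra.smul_def]
  apply Ideal.mul_mem_right
  apply Ideal.mem_map_of_mem
  rw [RingHom.mem_ker, ← coeff_map, hp, coeff_zero]

theorem maximal [Algebra.IsIntegral R A] (hinj : Function.Injective (algebraMap R A))
    (ι : k →+* R) (hι : ∀ c, ev (ι c) = c) (γ : A) (f : R[X]) (hf : aeval γ f = 0) (h : R)
    (hh : ∀ x : A, ∃ q : R[X], algebraMap R A h * x = aeval γ q) (hev : ev h ≠ 0)
    (hirr : Irreducible (f.map ev)) :
    (Ideal.map (algebraMap R A) (RingHom.ker ev)).IsMaximal := by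
  set I := Ideal.map (algebraMap R A) (RingHom.ker ev) with hI
  have hsurj : Function.Surjective ev := fun c => ⟨ι c, hι c⟩
  have hlift : ∀ p : k[X], (p.map ι).map ev = p := by
    intro p
    rw [Polynomial.map_map]
    have : ev.comp ι = RingHom.id k := RingHom.ext hι
    rw [this, Polynomial.map_id]
  rw [Ideal.isMaximal_iff]
  constructor
  · haveI : (RingHom.ker ev).IsMaximal := RingHom.ker_isMaximal_of_surjective ev hsurj
    obtain ⟨Q, hQ, hQc⟩ := Ideal.exists_ideal_over_maximal_of_isIntegral (S := A) (RingHom.ker ev)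
      (by
        rw [(RingHom.injective_iff_ker_eq_bot _).1 hinj]
        exact bot_le)
    intro h1
    have h2 : I ≤ Q := by
      rw [hI, Ideal.map_le_iff_le_comap, hQc]
    exact hQ.ne_top ((Ideal.eq_top_iff_one _).2 (h2 h1))
  · intro J x hIJ hx hxJ
    obtain ⟨q, hq⟩ := hh x
    by_cases hdvd : f.map ev ∣ q.map ev
    · exfalso
      apply hx
      obtain ⟨g, hg⟩ := hdvd
      have h1 : aeval γ (q - f * g.map ι) ∈ I := by
        apply aeval_mem ev
        rw [Polynomial.map_sub, Polynomial.map_mul, hlift, hg, sub_self]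
      rw [map_sub, map_mul, hf, zero_mul, sub_zero, ← hq] at h1
      have h2 : algebraMap R A (h - ι (ev h)) ∈ I := by
        apply Ideal.mem_map_of_mem
        rw [RingHom.mem_ker, map_sub, hι, sub_self]
      have h3 : algebraMap R A (ι (ev h)) * x ∈ I := by
        have h4 : algebraMap R A (ι (ev h)) * x =
            algebraMap R A h * x - algebraMap R A (h - ι (ev h)) * x := by
          rw [map_sub]; ring
        rw [h4]
        exact Ideal.sub_mem _ h1 (Ideal.mul_mem_right _ _ h2)
      have h5 : x = algebraMap R A (ι (ev h)⁻¹) * (algebraMap R A (ι (ev h)) * x) := by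
        rw [← mul_assoc, ← map_mul, ← map_mul, inv_mul_cancel₀ hev, map_one, map_one, one_mul]
      rw [h5]
      exact Ideal.mul_mem_left _ _ h3
    · obtain ⟨u, v, huv⟩ := (hirr.coprime_iff_not_dvd.2 hdvd)
      have h1 : aeval γ (u.map ι * f + v.map ι * q - 1) ∈ I := by
        apply aeval_mem ev
        rw [Polynomial.map_sub, Polynomial.map_add, Polynomial.map_mul, Polynomial.map_mul, hlift,
          hlift, huv, Polynomial.map_one, sub_self]
      rw [map_sub, map_add, map_mul, map_mul, hf, mul_zero, zero_add, map_one, ← hq] at h1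
      have h2 : aeval γ (v.map ι) * (algebraMap R A h * x) ∈ J := by
        rw [← mul_assoc]
        exact Ideal.mul_mem_left _ _ hxJ
      have h3 : (1 : A) = aeval γ (v.map ι) * (algebraMap R A h * x) -
          (aeval γ (v.map ι) * (algebraMap R A h * x) - 1) := by ring
      rw [h3]
      exact Ideal.sub_mem _ h2 (hIJ h1)

end fibre

theorem main : Q_SL := by
  intro k _ _ n A _ _ _ _ hinj
  obtain ⟨γ, h, hh, hγ⟩ := prim2 (MvPolynomial (Fin n) k) A hinj
  haveI : Algebra.IsIntegral (MvPolynomial (Fin n) k) A := Algebra.IsIntegral.of_finite _ _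
  haveI hF : FaithfulSMul (MvPolynomial (Fin n) k) A :=
    (faithfulSMul_iff_algebraMap_injective _ _).2 hinj
  have hint : IsIntegral (MvPolynomial (Fin n) k) γ := Algebra.IsIntegral.isIntegral γ
  refine ⟨h, {minpoly (MvPolynomial (Fin n) k) γ}, hh, ?_, ?_⟩
  · intro f hf
    rw [Finset.mem_singleton] at hf
    subst hf
    exact ⟨minpoly.monic hint,
      (minpoly.monic hint).irreducible_iff_irreducible_map_fraction_map.1 (minpoly.irreducible hint)⟩
  · intro a ha hf
    exact maximal (MvPolynomial.eval a) hinj MvPolynomial.C (fun c => MvPolynomial.eval_C c) γ _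
      (minpoly.aeval _ _) h hγ ha (hf _ (Finset.mem_singleton_self _))

end Pool.Agent.Helper61.Thin.SL
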