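import Pool.Agent.Helper61.Thin.ALC

/-! Part DIC. -/

set_option autoImplicit false
set_option linter.all false

open Polynomial
open scoped Classical

namespace Pool.Agent.Helper61.Thin.DIC

open Pool.Agent.Helper55.RT Pool.Agent.Helper61.Thin.ALC

/-- permutations which commute with the even permutations are trivial -/
lemma central {n : ℕ} (hn : 5 ≤ n) (π : Equiv.Perm (Fin n))
    (h : ∀ a ∈ alternatingGroup (Fin n), π * a * π⁻¹ * a⁻¹ = 1) : π = 1 := by
  by_contra hne
  obtain ⟨i, hi⟩ : ∃ i, π i ≠ i := by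
    by_contra hcon
    push Not at hcon
    exact hne (Equiv.ext hcon)
  obtain ⟨u, hu⟩ : ∃ u : Fin n, u ∉ ({i, π i} : Finset (Fin n)) := by
    by_contra hcon
    push Not at hcon
    have h1 : (Finset.univ : Finset (Fin n)) ⊆ {i, π i} := fun x _ => hcon x
    have h2 := Finset.card_le_card h1
    have h3 : ({i, π i} : Finset (Fin n)).card ≤ 2 := Finset.card_le_two
    rw [Finset.card_univ, Fintype.card_fin] at h2
    omega
  obtain ⟨v, hv⟩ : ∃ v : Fin n, v ∉ ({i, π i, u} : Finset (Fin n)) := by
    by_contra hcon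
    push Not at hcon
    have h1 : (Finset.univ : Finset (Fin n)) ⊆ {i, π i, u} := fun x _ => hcon x
    have h2 := Finset.card_le_card h1
    have h3 : ({i, π i, u} : Finset (Fin n)).card ≤ 3 := Finset.card_le_three
    rw [Finset.card_univ, Fintype.card_fin] at h2
    omega
  simp only [Finset.mem_insert, Finset.mem_singleton, not_or] at hu hv
  set a : Equiv.Perm (Fin n) := Equiv.swap (π i) u * Equiv.swap (π i) v with ha
  have hav : a ∈ alternatingGroup (Fin n) := by
    rw [Equiv.Perm.mem_alternatingGroup, ha, map_mul, Equiv.Perm.sign_swap (Ne.symm hu.2),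
      Equiv.Perm.sign_swap (Ne.symm hv.2.1)]
    rfl
  have h1 := h a hav
  have h2 : π * a = a * π := by
    have := congrArg (fun t => t * a * π) h1
    simpa [mul_assoc] using this
  have h3 : π (a i) = a (π i) := congrArg (fun t : Equiv.Perm (Fin n) => t i) h2
  have h4 : a i = i := by
    rw [ha, Equiv.Perm.mul_apply, Equiv.swap_apply_of_ne_of_ne (Ne.symm hi) (Ne.symm hv.1),
      Equiv.swap_apply_of_ne_of_ne (Ne.symm hi) (Ne.symm hu.1)]
  have h5 : a (π i) = v := by
    rw [ha, Equiv.Perm.mul_apply, Equiv.swap_apply_left,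
      Equiv.swap_apply_of_ne_of_ne hv.2.1 hv.2.2]
  rw [h4, h5] at h3
  exact hv.2.1 h3.symm

theorem dic : Q_DIC := by
  intro k k' _ _ _ _ _ κ κ₁ hfin hκ hst n D θ hn hD hθ hAlt
  have hGk : IsGalois k k' := IsSepClosure.isGalois (k := k) (K := k')
  have hinj := Pool.Agent.Helper32.Thin.inj_of hD hθ
  have hA := (alt_iff κ θ).1 hAlt
  -- conjugation
  have hnorm : ∀ π ∈ NN κ₁ θ, ∀ a ∈ alternatingGroup (Fin n), a * π * a⁻¹ ∈ NN κ₁ θ := by
    rintro π ⟨ν, hν, hν'⟩ a ha
    obtain ⟨α, hα, hα'⟩ := hA ha
    have hαs : ∀ i, α.symm (θ i) = θ (a⁻¹ i) := by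
      intro i
      rw [AlgEquiv.symm_apply_eq, hα']
      simp
    refine ⟨(α.symm.trans ν).trans α, ?_, ?_⟩
    · intro x hx
      change α (ν (α.symm x)) = x
      rw [hν _ (hst α.symm (fun y hy => by rw [AlgEquiv.symm_apply_eq, hα y hy]) x hx),
        AlgEquiv.apply_symm_apply]
    · intro i
      change α (ν (α.symm (θ i))) = _
      rw [hαs, hν', hα']
      rfl
  by_cases hN : NN κ₁ θ = ⊥
  · right
    -- all the roots are in `κ₁`
    have hθκ : ∀ i, θ i ∈ κ₁ := by
      intro i
      have hG : IsGalois κ₁ k' := inferInstance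
      have h1 : ∀ ν : k' ≃ₐ[κ₁] k', ν (θ i) = θ i := by
        intro ν
        have hp : ∀ l, ∃ m, ν (θ l) = θ m := fun l =>
          Pool.Agent.Helper32.Thin.perm_of hθ (ν.restrictScalars k) l
        choose f hf using hp
        have hfi : Function.Injective f := by
          intro a b hab
          apply hinj
          apply ν.injective
          rw [hf, hf, hab]
        let σ : Equiv.Perm (Fin n) := Equiv.ofBijective f (Finite.injective_iff_bijective.1 hfi)
        have hσ : σ ∈ NN κ₁ θ := ⟨ν.restrictScalars k, fun x hx => ν.commutes ⟨x, hx⟩, hf⟩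
        rw [hN, Subgroup.mem_bot] at hσ
        rw [hf]
        have : σ i = i := by rw [hσ]; rfl
        exact congrArg θ this
      have h2 := (InfiniteGalois.mem_bot_iff_fixed (k := κ₁) (K := k') (θ i)).2 h1
      rw [IntermediateField.mem_bot] at h2
      obtain ⟨y, hy⟩ := h2
      rw [← hy]
      exact y.2
    haveI : IsAlgClosed k' := Pool.Agent.Helper12.Thin.GRP.algClosed k k'
    set D' : κ[X] := D.map (algebraMap k κ) with hD'
    have hDk : D'.map (algebraMap κ k') = ∏ i, (X - C (θ i)) := by
      rw [hD', Polynomial.map_map, ← IsScalarTower.algebraMap_eq, hθ]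
    haveI : Fact ((D'.map (algebraMap κ k')).Splits) := ⟨IsAlgClosed.splits _⟩
    have hDs : D'.Separable := hD.separable.map
    have hD0 : D' ≠ 0 := hDs.ne_zero
    have hrt : D'.rootSet k' = Set.range θ := by
      ext x
      rw [mem_rootSet_of_ne hD0, ← eval_map_algebraMap, hDk, eval_prod, Finset.prod_eq_zero_iff]
      constructor
      · rintro ⟨i, -, hi⟩
        rw [eval_sub, eval_X, eval_C] at hi
        exact ⟨i, (sub_eq_zero.1 hi).symm⟩
      · rintro ⟨i, rfl⟩
        exact ⟨i, Finset.mem_univ i, by simp⟩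
    let e : Fin n ≃ D'.rootSet k' := (Equiv.ofInjective θ hinj).trans (Equiv.setCongr hrt.symm)
    have he : ∀ i, ((e i : D'.rootSet k') : k') = θ i := fun i => rfl
    have hle : (alternatingGroup (Fin n)).map (e.permCongrHom.toMonoidHom : Equiv.Perm (Fin n) →* Equiv.Perm (D'.rootSet k')) ≤
        (Polynomial.Gal.galActionHom D' k').range := by
      rintro _ ⟨π, hπ, rfl⟩
      obtain ⟨ν, hν⟩ := hAlt π hπ
      refine ⟨Polynomial.Gal.restrict D' k' ν, ?_⟩
      ext x
      rw [Polynomial.Gal.galActionHom_restrict]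
      obtain ⟨i, rfl⟩ := e.surjective x
      rw [he, hν]
      have : (e.permCongrHom.toMonoidHom : Equiv.Perm (Fin n) →* Equiv.Perm (D'.rootSet k')) π (e i) = e (π i) := by
        simp [Equiv.permCongrHom]
      rw [this, he]
    have h1 : Nat.card (alternatingGroup (Fin n)) ∣ Nat.card D'.Gal := by
      have h2 : Nat.card ((alternatingGroup (Fin n)).map
          (e.permCongrHom.toMonoidHom : Equiv.Perm (Fin n) →* Equiv.Perm (D'.rootSet k'))) = Nat.card (alternatingGroup (Fin n)) :=
        Subgroup.card_map_of_injective (e.permCongrHom.injective)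
      rw [← h2]
      exact (Subgroup.card_dvd_of_le hle).trans (Subgroup.card_range_dvd _)
    rw [Polynomial.Gal.card_of_separable hDs] at h1
    -- `κ₁` over `κ`
    let κ₂ : IntermediateField κ k' := IntermediateField.extendScalars hκ
    have hκ₂ : ∀ i, θ i ∈ κ₂ := hθκ
    have hD'' : D'.map (algebraMap κ κ₂) = ∏ i, (X - C (⟨θ i, hκ₂ i⟩ : κ₂)) := by
      apply Polynomial.map_injective (algebraMap κ₂ k') (algebraMap κ₂ k').injective
      rw [Polynomial.map_map, ← IsScalarTower.algebraMap_eq, hDk, Polynomial.map_prod]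
      refine Finset.prod_congr rfl fun i _ => ?_
      rw [Polynomial.map_sub, map_X, map_C]
      rfl
    have hsp : (D'.map (algebraMap κ κ₂)).Splits := by
      rw [hD'']
      exact Splits.prod fun i _ => Splits.X_sub_C _
    let f : D'.SplittingField →ₐ[κ] κ₂ := SplittingField.lift D' hsp
    have h2 : Module.finrank κ D'.SplittingField = Module.finrank κ f.fieldRange :=
      (LinearEquiv.finrank_eq (AlgEquiv.ofInjectiveField f).toLinearEquiv)
    have h3 : Module.finrank κ D'.SplittingField ∣ Module.finrank κ κ₂ := by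
      rw [h2, ← Module.finrank_mul_finrank κ f.fieldRange κ₂]
      exact Dvd.intro _ rfl
    have h4 : Module.finrank k κ * Module.finrank κ κ₂ = Module.finrank k κ₂ :=
      Module.finrank_mul_finrank k κ κ₂
    have h5 : Module.finrank k κ₂ = Module.finrank k κ₁ := rfl
    obtain ⟨c, hc⟩ := h1.trans h3
    have h6 : 2 * Nat.card (alternatingGroup (Fin n)) = Nat.factorial n := by
      haveI : Nontrivial (Fin n) := Fin.nontrivial_iff_two_le.2 (by omega)
      rw [two_mul_nat_card_alternatingGroup, Nat.card_perm, Nat.card_fin]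
    refine ⟨c, ?_⟩
    rw [← h5, ← h4, hc, ← h6]
    ring
  · left
    rw [alt_iff]
    have hcard : 5 ≤ Nat.card (Fin n) := by simpa using hn
    haveI : IsSimpleGroup (alternatingGroup (Fin n)) := alternatingGroup.isSimpleGroup hcard
    let M : Subgroup (alternatingGroup (Fin n)) := (NN κ₁ θ).subgroupOf (alternatingGroup (Fin n))
    have hM : M.Normal := by
      constructor
      intro π hπ a
      have h1 : (π : Equiv.Perm (Fin n)) ∈ NN κ₁ θ := hπ
      exact hnorm _ h1 a a.2
    rcases hM.eq_bot_or_eq_top with h | h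
    · exfalso
      obtain ⟨⟨π, hπ⟩, hπ1⟩ := (Subgroup.ne_bot_iff_exists_ne_one).1 hN
      apply hπ1
      have hone : π = 1 := by
        apply central hn
        intro a ha
        have h1 : a * π⁻¹ * a⁻¹ ∈ NN κ₁ θ := hnorm _ ((NN κ₁ θ).inv_mem hπ) a ha
        have h2 : π * a * π⁻¹ * a⁻¹ ∈ NN κ₁ θ := by
          have := (NN κ₁ θ).mul_mem hπ h1
          simpa [mul_assoc] using this
        have h3 : π * a * π⁻¹ * a⁻¹ ∈ alternatingGroup (Fin n) := by
          rw [Equiv.Perm.mem_alternatingGroup] at ha ⊢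
          simp [ha]
        have h4 : (⟨_, h3⟩ : alternatingGroup (Fin n)) ∈ M := h2
        rw [h, Subgroup.mem_bot] at h4
        exact congrArg Subtype.val h4
      exact Subtype.ext hone
    · intro a ha
      have : (⟨a, ha⟩ : alternatingGroup (Fin n)) ∈ M := by rw [h]; trivial
      exact this

end Pool.Agent.Helper61.Thin.DIC
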