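import Pool.Agent.Helper55.RT.Spec4
import Pool.Agent.Helper32.Thin.Common
import Pool.Agent.Helper12.Thin.GRP

/-! Parts ALC and DIC. -/

set_option autoImplicit false
set_option linter.all false

open Polynomial
open scoped Classical

namespace Pool.Agent.Helper61.Thin.ALC

open Pool.Agent.Helper55.RT

section

variable {k k' : Type} [Field k] [Field k'] [Algebra k k']

/-- `π` is induced by an automorphism over `M` -/
def Ind (M : IntermediateField k k') {n : ℕ} (θ : Fin n → k') (π : Equiv.Perm (Fin n)) : Prop :=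
  ∃ ν : k' ≃ₐ[k] k', (∀ x ∈ M, ν x = x) ∧ ∀ i, ν (θ i) = θ (π i)

/-- the group of these permutations -/
def NN (M : IntermediateField k k') {n : ℕ} (θ : Fin n → k') : Subgroup (Equiv.Perm (Fin n)) where
  carrier := {π | Ind M θ π}
  mul_mem' := by
    rintro π₁ π₂ ⟨ν₁, h₁, h₁'⟩ ⟨ν₂, h₂, h₂'⟩
    refine ⟨ν₂.trans ν₁, fun x hx => ?_, fun i => ?_⟩
    · rw [AlgEquiv.trans_apply, h₂ x hx, h₁ x hx]
    · rw [AlgEquiv.trans_apply, h₂', h₁']
      rfl
  one_mem' := ⟨AlgEquiv.refl, fun x _ => rfl, fun i => rfl⟩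
  inv_mem' := by
    rintro π ⟨ν, h, h'⟩
    refine ⟨ν.symm, fun x hx => ?_, fun i => ?_⟩
    · rw [AlgEquiv.symm_apply_eq, h x hx]
    · rw [AlgEquiv.symm_apply_eq, h']
      simp

lemma mem_NN {M : IntermediateField k k'} {n : ℕ} {θ : Fin n → k'} {π : Equiv.Perm (Fin n)} :
    π ∈ NN M θ ↔ ∃ ν : k' ≃ₐ[k] k', (∀ x ∈ M, ν x = x) ∧ ∀ i, ν (θ i) = θ (π i) := Iff.rfl

lemma alt_iff (M : IntermediateField k k') {n : ℕ} (θ : Fin n → k') :
    Alt M θ ↔ alternatingGroup (Fin n) ≤ NN M θ := by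
  constructor
  · intro h π hπ
    obtain ⟨ν, hν⟩ := h π hπ
    exact ⟨ν.restrictScalars k, fun x hx => ν.commutes ⟨x, hx⟩, hν⟩
  · intro h π hπ
    obtain ⟨ν, hν, hν'⟩ := h hπ
    exact ⟨AlgEquiv.ofRingEquiv (f := ν.toRingEquiv) (fun x => hν x x.2), hν'⟩

/-- commutators -/
lemma comm_mem {κ A B : IntermediateField k k'} (hκA : κ ≤ A) (hκB : κ ≤ B) (hA : Stab κ A)
    {n : ℕ} {θ : Fin n → k'} {a b : Equiv.Perm (Fin n)} (ha : a ∈ NN A θ) (hb : b ∈ NN B θ)
    (hB : Stab κ B) : a * b * a⁻¹ * b⁻¹ ∈ NN (A ⊔ B) θ := by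
  obtain ⟨α, hα, hα'⟩ := ha
  obtain ⟨β, hβ, hβ'⟩ := hb
  have hαs : ∀ i, α.symm (θ i) = θ (a⁻¹ i) := by
    intro i
    rw [AlgEquiv.symm_apply_eq, hα']
    simp
  have hβs : ∀ i, β.symm (θ i) = θ (b⁻¹ i) := by
    intro i
    rw [AlgEquiv.symm_apply_eq, hβ']
    simp
  let c : k' ≃ₐ[k] k' := ((β.symm.trans α.symm).trans β).trans α
  have hc : ∀ x, c x = α (β (α.symm (β.symm x))) := fun x => rfl
  have hcA : ∀ x ∈ A, c x = x := by
    intro x hx
    have h1 : β.symm x ∈ A := by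
      apply hA β.symm _ x hx
      intro y hy
      rw [AlgEquiv.symm_apply_eq, hβ y (hκB hy)]
    have h2 : α.symm (β.symm x) = β.symm x := by
      rw [AlgEquiv.symm_apply_eq, hα _ h1]
    rw [hc, h2, AlgEquiv.apply_symm_apply, hα x hx]
  have hcB : ∀ x ∈ B, c x = x := by
    intro x hx
    have h1 : β.symm x = x := by rw [AlgEquiv.symm_apply_eq, hβ x hx]
    have h2 : α.symm x ∈ B := by
      apply hB α.symm _ x hx
      intro y hy
      rw [AlgEquiv.symm_apply_eq, hα y (hκA hy)]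
    rw [hc, h1, hβ _ h2, AlgEquiv.apply_symm_apply]
  refine ⟨c, ?_, ?_⟩
  · intro x hx
    let E : IntermediateField k k' :=
      IntermediateField.fixedField (Subgroup.zpowers c)
    have hE : ∀ y, c y = y → y ∈ E := by
      intro y hy
      rw [IntermediateField.mem_fixedField_iff]
      intro f hf
      obtain ⟨m, rfl⟩ := Subgroup.mem_zpowers_iff.1 hf
      have hst : c ∈ MulAction.stabilizer (k' ≃ₐ[k] k') y := hy
      exact (MulAction.stabilizer (k' ≃ₐ[k] k') y).zpow_mem hst m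
    have hle : A ⊔ B ≤ E := sup_le (fun y hy => hE y (hcA y hy)) (fun y hy => hE y (hcB y hy))
    have := hle hx
    rw [IntermediateField.mem_fixedField_iff] at this
    exact this c (Subgroup.mem_zpowers c)
  · intro i
    rw [hc, hβs, hαs, hβ', hα']
    rfl

/-- the property which is preserved by composita -/
def PP (κ M : IntermediateField k k') {n : ℕ} (θ : Fin n → k') : Prop :=
  κ ≤ M ∧ Stab κ M ∧ Alt M θ

lemma pp_sup {κ A B : IntermediateField k k'} {n : ℕ} {θ : Fin n → k'} (hn : 5 ≤ n)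
    (hA : PP κ A θ) (hB : PP κ B θ) : PP κ (A ⊔ B) θ := by
  refine ⟨hA.1.trans le_sup_left, ?_, ?_⟩
  · intro ν hν x hx
    have h1 : A.map (ν : k' →ₐ[k] k') ≤ A := by
      rintro _ ⟨y, hy, rfl⟩
      exact hA.2.1 ν hν y hy
    have h2 : B.map (ν : k' →ₐ[k] k') ≤ B := by
      rintro _ ⟨y, hy, rfl⟩
      exact hB.2.1 ν hν y hy
    have h3 : (A ⊔ B).map (ν : k' →ₐ[k] k') ≤ A ⊔ B := by
      rw [IntermediateField.map_sup]
      exact sup_le_sup h1 h2
    exact h3 ⟨x, hx, rfl⟩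
  · rw [alt_iff]
    have h1 := (alt_iff A θ).1 hA.2.2
    have h2 := (alt_iff B θ).1 hB.2.2
    rw [← commutator_alternatingGroup_eq_self (α := Fin n) (by simpa using hn)]
    rw [Subgroup.commutator_le]
    intro a ha b hb
    exact comm_mem hA.1 hB.1 hA.2.1 (h1 ha) (h2 hb) hB.2.1

end

theorem alc : Q_ALC := by
  intro k k' _ _ _ _ _ κ κ₁ _ _ hκ hst n D θ hn hD hθ hAlt
  have hGk : IsGalois k k' := IsSepClosure.isGalois (k := k) (K := k')
  have hinj := Pool.Agent.Helper32.Thin.inj_of hD hθ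
  have hnor : ∀ (s : k' ≃ₐ[k] k') (x : k'), x ∈ κ → s x ∈ κ := by
    intro s x hx
    have h1 := IntermediateField.normal_iff_forall_map_le'.1 (inferInstance : Normal k κ) s
    exact h1 ⟨x, hx, rfl⟩
  -- conjugates
  have hconj : ∀ s : k' ≃ₐ[k] k', PP κ (κ₁.map (s : k' →ₐ[k] k')) θ := by
    intro s
    refine ⟨?_, ?_, ?_⟩
    · intro x hx
      exact ⟨s.symm x, hκ (hnor s.symm x hx), AlgEquiv.apply_symm_apply s x⟩
    · rintro ν hν _ ⟨y, hy, rfl⟩
      refine ⟨s.symm (ν (s y)), ?_, AlgEquiv.apply_symm_apply s _⟩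
      refine hst ((s.trans ν).trans s.symm) ?_ y hy
      intro x hx
      change s.symm (ν (s x)) = x
      rw [hν _ (hnor s x hx), AlgEquiv.symm_apply_apply]
    · rw [alt_iff]
      intro π hπ
      have hp : ∀ l, ∃ m, s (θ l) = θ m := fun l => Pool.Agent.Helper32.Thin.perm_of hθ s l
      choose f hf using hp
      have hfi : Function.Injective f := by
        intro a b hab
        apply hinj
        apply s.injective
        rw [hf, hf, hab]
      let σ : Equiv.Perm (Fin n) := Equiv.ofBijective f (Finite.injective_iff_bijective.1 hfi)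
      have hσ : ∀ i, s (θ i) = θ (σ i) := hf
      have hσs : ∀ i, s.symm (θ i) = θ (σ⁻¹ i) := by
        intro i
        rw [AlgEquiv.symm_apply_eq, hσ]
        simp
      have hπ' : σ⁻¹ * π * σ ∈ alternatingGroup (Fin n) := by
        rw [Equiv.Perm.mem_alternatingGroup] at hπ ⊢
        simp [hπ]
      obtain ⟨ν, hν, hν'⟩ := (alt_iff κ₁ θ).1 hAlt hπ'
      refine ⟨(s.symm.trans ν).trans s, ?_, ?_⟩
      · rintro _ ⟨y, hy, rfl⟩
        change s (ν (s.symm (s y))) = s y
        rw [AlgEquiv.symm_apply_apply, hν y hy]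
      · intro i
        change s (ν (s.symm (θ i))) = _
        rw [hσs, hν', hσ]
        simp
  have hfr : ∀ f : κ₁ →ₐ[k] k', PP κ f.fieldRange θ := by
    intro f
    let F : k' →ₐ[k] k' := f.liftNormal k'
    have hF : ∀ x : κ₁, F x = f x := fun x => f.liftNormal_commutes k' x
    let s : k' ≃ₐ[k] k' := AlgEquiv.ofBijective F (Algebra.IsAlgebraic.algHom_bijective F)
    have h1 : f.fieldRange = κ₁.map (s : k' →ₐ[k] k') := by
      ext x
      constructor
      · rintro ⟨y, rfl⟩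
        exact ⟨y, y.2, hF y⟩
      · rintro ⟨y, hy, rfl⟩
        exact ⟨⟨y, hy⟩, (hF ⟨y, hy⟩).symm⟩
    rw [h1]
    exact hconj s
  have hall : ∀ S : Finset (κ₁ →ₐ[k] k'), PP κ (κ₁ ⊔ S.sup fun f => f.fieldRange) θ := by
    intro S
    induction S using Finset.induction_on with
    | empty => simpa using ⟨hκ, hst, hAlt⟩
    | insert f S hf ih =>
      rw [Finset.sup_insert, ← sup_assoc, sup_comm κ₁, sup_assoc]
      exact pp_sup hn (hfr f) ih
  haveI : Fintype (κ₁ →ₐ[k] k') := Fintype.ofFinite _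
  have h2 := (hall Finset.univ).2.2
  rw [Finset.sup_univ_eq_iSup, ← normalClosure_def, sup_eq_right.2 (IntermediateField.le_normalClosure κ₁)] at h2
  refine ⟨IntermediateField.normalClosure k κ₁ k', IntermediateField.le_normalClosure κ₁, inferInstance, ?_, h2⟩
  haveI : Normal k (IntermediateField.normalClosure k κ₁ k') := inferInstance
  exact ⟨⟩

end Pool.Agent.Helper61.Thin.ALC
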