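import Pool.Agent.Helper55.RT.Spec

/-!
# NDV: outside of a thin set the polynomial is irreducible and does not divide `s`
-/

set_option autoImplicit false
set_option linter.all false

open Polynomial UniqueFactorizationMonoid
open scoped Classical

namespace Pool.Agent.Helper61.Thin.NDV

open Pool.Agent.Helper55.RT

theorem map_mpol {R S : Type} [CommRing R] [CommRing S] (φ : R →+* S) {n : ℕ} (a : Fin n → R) :
    (mpol a).map φ = mpol (fun i => φ (a i)) := by
  unfold mpol
  simp [Polynomial.map_sum]

theorem deg_lt {R : Type} [CommRing R] {n : ℕ} (a : Fin n → R) :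
    (∑ i : Fin n, C (a i) * X ^ (i : ℕ) : R[X]).degree < n :=
  degree_sum_fin_lt a

theorem monic_mpol {R : Type} [CommRing R] {n : ℕ} (a : Fin n → R) : (mpol a).Monic := by
  unfold mpol
  exact monic_X_pow_add (deg_lt a)

theorem natDegree_mpol {R : Type} [CommRing R] [Nontrivial R] {n : ℕ} (a : Fin n → R) :
    (mpol a).natDegree = n := by
  unfold mpol
  rw [natDegree_add_eq_left_of_degree_lt]
  · exact natDegree_X_pow n
  · rw [degree_X_pow]
    exact deg_lt a

theorem coeff_zero {R : Type} [CommRing R] {n : ℕ} (hn : 0 < n) (a : Fin n → R) :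
    (mpol a).coeff 0 = a ⟨0, hn⟩ := by
  unfold mpol
  rw [coeff_add, coeff_X_pow, if_neg (by omega), zero_add, finset_sum_coeff,
    Finset.sum_eq_single ⟨0, hn⟩]
  · simp
  · intro i _ hi
    rw [coeff_C_mul, coeff_X_pow, if_neg, mul_zero]
    intro h
    exact hi (Fin.ext h.symm)
  · intro h
    exact absurd (Finset.mem_univ _) h

/-- `X ^ n + T` is irreducible -/
theorem irr_eis {k : Type} [Field k] {n : ℕ} (hn : 0 < n) :
    Irreducible (X ^ n + C (X : k[X]) : k[X][X]) := by
  have hd : (C (X : k[X]) : k[X][X]).degree < n := by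
    rw [degree_C X_ne_zero]
    exact_mod_cast hn
  have hm : (X ^ n + C (X : k[X]) : k[X][X]).Monic := monic_X_pow_add hd
  have hdeg : (X ^ n + C (X : k[X]) : k[X][X]).degree = n := by
    rw [degree_add_eq_left_of_degree_lt]
    · exact degree_X_pow n
    · rw [degree_X_pow]; exact hd
  have hP : (Ideal.span {(X : k[X])}).IsPrime :=
    (Ideal.span_singleton_prime X_ne_zero).2 prime_X
  refine irreducible_of_eisenstein_criterion hP ?_ ?_ ?_ ?_ hm.isPrimitive
  · rw [hm.leadingCoeff]
    intro h
    exact hP.ne_top ((Ideal.eq_top_iff_one _).2 h)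
  · intro m hm'
    rw [hdeg] at hm'
    have hmn : m < n := by exact_mod_cast hm'
    rw [coeff_add, coeff_X_pow, if_neg (by omega), zero_add, coeff_C]
    split_ifs
    · exact Ideal.mem_span_singleton_self _
    · exact Ideal.zero_mem _
  · rw [hdeg]
    exact_mod_cast hn
  · rw [coeff_add, coeff_X_pow, if_neg (by omega), zero_add, coeff_C_zero, Ideal.span_singleton_pow,
      Ideal.mem_span_singleton]
    rintro ⟨q, hq⟩
    have h1 := congrArg (fun r : k[X] => r.coeff 1) hq
    simp only [coeff_X_one] at h1
    rw [coeff_X_pow_mul', if_neg (by norm_num)] at h1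
    exact one_ne_zero h1

theorem irr_gen {k : Type} [Field k] {n : ℕ} (hn : 0 < n) :
    Irreducible ((mpol (MvPolynomial.X : Fin n → MvPolynomial (Fin n) k)).map
      (algebraMap (MvPolynomial (Fin n) k) (FractionRing (MvPolynomial (Fin n) k)))) := by
  rw [← Monic.irreducible_iff_irreducible_map_fraction_map (monic_mpol _)]
  let φ : MvPolynomial (Fin n) k →+* k[X] :=
    (MvPolynomial.aeval (fun i : Fin n => if i = ⟨0, hn⟩ then (X : k[X]) else 0)).toRingHom
  apply Monic.irreducible_of_irreducible_map φ _ (monic_mpol _)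
  have h1 : (mpol (MvPolynomial.X : Fin n → MvPolynomial (Fin n) k)).map φ =
      X ^ n + C (X : k[X]) := by
    rw [map_mpol]
    have h2 : ∀ i : Fin n, φ (MvPolynomial.X i) = if i = ⟨0, hn⟩ then (X : k[X]) else 0 := by
      intro i
      exact MvPolynomial.aeval_X _ _
    unfold mpol
    congr 1
    rw [Finset.sum_eq_single ⟨0, hn⟩]
    · beta_reduce
      rw [h2, if_pos rfl]
      simp
    · intro i _ hi
      beta_reduce
      rw [h2, if_neg hi]
      simp
    · intro h
      exact absurd (Finset.mem_univ _) h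
  rw [h1]
  exact irr_eis hn

theorem main : Q_NDV := by
  intro k _ _ n hn s hs
  refine ⟨∏ d ∈ (normalizedFactors s).toFinset,
    (MvPolynomial.X ⟨0, hn⟩ - MvPolynomial.C (d.coeff 0)),
    {mpol (MvPolynomial.X : Fin n → MvPolynomial (Fin n) k)}, ?_, ?_, ?_⟩
  · rw [Finset.prod_ne_zero_iff]
    intro d _ h
    have h1 := congrArg (MvPolynomial.eval (fun _ : Fin n => d.coeff 0 + 1)) h
    simp at h1
  · intro f hf
    rw [Finset.mem_singleton] at hf
    subst hf
    exact ⟨monic_mpol _, irr_gen hn⟩
  · intro a ha hf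
    have h1 := hf _ (Finset.mem_singleton_self _)
    have h2 : (mpol (MvPolynomial.X : Fin n → MvPolynomial (Fin n) k)).map (MvPolynomial.eval a) =
        mpol a := by
      rw [map_mpol]
      congr 1
      funext i
      exact MvPolynomial.eval_X i
    rw [h2] at h1
    refine ⟨h1, fun hdvd => ?_⟩
    have h3 : mpol a ∈ (normalizedFactors s).toFinset := by
      rw [Multiset.mem_toFinset, mem_normalizedFactors_iff' hs]
      exact ⟨h1, (monic_mpol a).normalize_eq_self, hdvd⟩
    apply ha
    rw [map_prod]
    apply Finset.prod_eq_zero h3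
    rw [map_sub, MvPolynomial.eval_X, MvPolynomial.eval_C, coeff_zero hn, sub_self]

end Pool.Agent.Helper61.Thin.NDV
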